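import Pool.Agent.Helper28.ND.All3

/-!
# MP_0c2f33_an: for which `(d, p, q)` are there non-parabolic solutions?

Let `b` be a divergence-free field in `L²(0,T; L^p(T^d))` and `u ∈ L^∞(0,T; L^q(T^d))` a
distributional solution of `∂u/∂t + div (b u) = Δ u`, where `q ≥ 2` and `1/p + 1/q ≤ 1`.
We show that, in every dimension `d ≥ 2`, non-parabolic solutions exist if and only if
`2/p + 1/q > 1`.

* `2/p + 1/q ≤ 1`: every solution is parabolic.  Duality with the adjoint problem whose drift is
  truncated at height `K`: the gradient of the dual solution is bounded by `C K`, and
  `K ∫∫ |u| |b| 1_{|b| > K} → 0`, since `|u| |b|²` is integrable.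
* `p < 2`: there is a static bounded example `u = W ∘ ℘ ∘ (x₁ + i x₂)` with the Weierstrass
  function `℘` of the square lattice and an explicit function `W` on the plane, for which
  `b u - ∇u` is a rotated gradient; the Dirichlet integral diverges, since `W` takes different
  limits along different rays at the poles of `℘`.
* `p ≥ 2`, `2/p + 1/q > 1`: a solution with datum zero which does not vanish.  It is a limit of
  solutions with more and more levels of scales `r_k = r_0 N^{-k}`.  A block of level `k` lasts
  `16 r_k²`; in its first part `M` blocks of level `k + 1` alternate with pulses of a cellular shear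
  `b = V cos(2π x₂/r_k) e₁` near the walls `x₁ = 0, 1/2`, which carries a fixed fraction of the mass
  produced by the blocks of level `k + 1` away from the wall, before it is cancelled by the
  mass of opposite sign on the other side of the wall (`u` is odd).  So the mass which survives is
  multiplied by `c M` at each level, while the source, which is placed at the smallest scale `r_K`
  and odd with respect to the walls, tends to zero in the sense of distributions if
  `M^K r_K^4` is divided by the surviving mass.  The norms are bounded if
  `N^{1 - 1/q} < c M` (this gives `u ∈ L^∞ L^q`) and `M < N^{2/p}` (this gives `b ∈ L² L^p`), and such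
  `M` exist if and only if `1 - 1/q < 2/p`.  All lower bounds for the surviving mass are obtained
  by explicit subsolutions of the adjoint equation.  A parabolic solution with datum zero and drift
  in `L²` vanishes, so the limit is not parabolic.

The parts were proved by a team: helper28 (proof plan, statements, explicit solution), helper4,
helper8, helper9, helper11, helper12, helper18, helper19, helper20, helper21, helper27, helper32,
helper33, helper39, helper45, helper46, helper47, helper53, helper57, helper59, helper62, helper66,
helper70, helper72, helper75, helper78, helper79, helper84, helper85, helper86, helper87, helper89,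
helper92, helper96, helper98.
-/

namespace Pool.Agent.Results.MP_0c2f33_an.ParabolicityThreshold

open Pool.Agent.Helper28.ND
open scoped ENNReal

theorem result :
    ∀ (d : ℕ) (T : ℝ) (p q : ℝ≥0∞), 2 ≤ d → 0 < T → 1 ≤ p → 2 ≤ q → p⁻¹ + q⁻¹ ≤ 1 →
      ((∃ (b : ℝ → (Fin d → ℝ) → (Fin d → ℝ)) (u0 : (Fin d → ℝ) → ℝ) (u : ℝ → (Fin d → ℝ) → ℝ),
        Drift d T p b ∧ Sol d T q b u0 u ∧ ¬ Parabolic d T u) ↔ 1 < 2 * p⁻¹ + q⁻¹) := by
  intro d T p q hd hT hp hq hpq
  constructor
  · rintro ⟨b, u0, u, hb, hu, hnp⟩
    by_contra h
    exact hnp (p_FULL.2 d T p q hT hq (not_lt.1 h) b u0 u hb hu)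
  · intro h
    exact p_FULL.1 d T p q hd hT hp hq hpq h

end Pool.Agent.Results.MP_0c2f33_an.ParabolicityThreshold
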